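import Mathlib

set_option autoImplicit false

namespace Pool.Agent.H.MP_d2bd57_al

open MvPolynomial

variable {k G : Type} [Field k] [Group G] {m : ℕ}

noncomputable def actOne (ρ : G →* Matrix (Fin m) (Fin m) k) (g : G) :
    MvPolynomial (Fin m) k →ₐ[k] MvPolynomial (Fin m) k :=
  aeval fun s => ∑ t, ρ g s t • X t

noncomputable def actMany (ρ : G →* Matrix (Fin m) (Fin m) k) (n : ℕ) (g : G) :
    MvPolynomial (Fin n × Fin m) k →ₐ[k] MvPolynomial (Fin n × Fin m) k :=
  aeval fun x => ∑ t, ρ g x.2 t • X (x.1, t)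

noncomputable def polGen (n : ℕ) :
    MvPolynomial (Fin m) k →ₐ[k] MvPolynomial (Fin n) (MvPolynomial (Fin n × Fin m) k) :=
  aeval fun s => ∑ i, X i * C (X (i, s))

noncomputable def polAlg (n : ℕ) (S : Set (MvPolynomial (Fin m) k)) :
    Subalgebra k (MvPolynomial (Fin n × Fin m) k) :=
  Algebra.adjoin k {x | ∃ f ∈ S, ∃ β : Fin n →₀ ℕ, x = coeff β (polGen n f)}

end Pool.Agent.H.MP_d2bd57_al
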