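import Mathlib

set_option autoImplicit false

namespace Pool.Agent.H.MP_d2bd57_al

open MvPolynomial

variable {k R : Type*} [Field k] [CommRing R] [Algebra k R]

def Coef (ι : Type*) (U : Submodule k R) : Submodule k (MvPolynomial ι R) where
  carrier := {E | ∀ μ, coeff μ E ∈ U}
  add_mem' := fun a b μ => by rw [coeff_add]; exact U.add_mem (a μ) (b μ)
  zero_mem' := fun μ => by simp
  smul_mem' := fun c x a μ => by rw [coeff_smul]; exact U.smul_mem c (a μ)

lemma coef_mul {ι : Type*} {U V : Submodule k R} {E F : MvPolynomial ι R} (a : E ∈ Coef ι U)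
    (b : F ∈ Coef ι V) : E * F ∈ Coef ι (U * V) := fun μ => by
  classical
  rw [coeff_mul]
  exact Submodule.sum_mem _ fun x _ => Submodule.mul_mem_mul (a _) (b _)

lemma coef_mono {ι : Type*} {U : Submodule k R} (μ : ι →₀ ℕ) {r : R} (h : r ∈ U) :
    monomial μ r ∈ Coef ι U := fun ν => by
  classical
  rw [coeff_monomial]
  split_ifs
  exacts [h, U.zero_mem]

lemma coef_one {ι : Type*} : (1 : MvPolynomial ι R) ∈ Coef ι (1 : Submodule k R) :=
  coef_mono 0 (Submodule.one_le.1 le_rfl)

lemma coef_prod {ι α : Type*} {U : Submodule k R} (B : Finset α) (L : α → MvPolynomial ι R)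
    (h : ∀ a, L a ∈ Coef ι U) : ∏ a ∈ B, L a ∈ Coef ι (U ^ B.card) := by
  classical
  induction B using Finset.induction_on with
  | empty => simpa using coef_one
  | insert a B ha ih =>
    rw [Finset.prod_insert ha, Finset.card_insert_of_notMem ha, pow_succ']
    · exact coef_mul (h a) ih

lemma coef_pow {ι : Type*} (U : Submodule k R) (n : ℕ) : Coef ι U ^ n ≤ Coef ι (U ^ n) := by
  induction n with
  | zero => simpa [Submodule.one_le] using coef_one
  | succ n ih =>
    rw [pow_succ, pow_succ]
    exact Submodule.mul_le.2 fun a ha b hb => coef_mul (ih ha) hb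

lemma map_pow_mem {S : Type*} [CommRing S] [Algebra k S] (φ : R →ₐ[k] S) {U : Submodule k R}
    {V : Submodule k S} (h : ∀ u ∈ U, φ u ∈ V) {n : ℕ} {x : R} (hx : x ∈ U ^ n) : φ x ∈ V ^ n := by
  have : (U ^ n).map φ.toLinearMap ≤ V ^ n := by
    rw [Submodule.map_pow]
    exact pow_le_pow_left' (Submodule.map_le_iff_le_comap.2 h) n
  exact this ⟨x, hx, rfl⟩

/-- The norm lemma. -/
lemma norm_lemma {G : Type*} [Group G] [Fintype G] (act : G → R →ₐ[k] R)
    (hact : ∀ g h x, act g (act h x) = act (h * g) x) (P A : Subalgebra k R) (hPA : P ≤ A)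
    (hP : ∀ a ∈ P, ∀ g, act g a = a) (U : Submodule k R) (hU : ∀ g, ∀ u ∈ U, act g u ∈ U) (j : ℕ)
    (hj : ((Fintype.card G).choose j : k) ≠ 0)
    (hA : ∀ x ∈ U ^ j, (∀ g, act g x = x) → x ∈ A) (f : R) (hf : ∀ g, act g f = f)
    (hfU : f ∈ Submodule.span P (U : Set R)) : f ^ j ∈ A := by
  classical
  obtain ⟨r, a, u, e⟩ := Submodule.mem_span_set'.1 hfU
  let L : G → MvPolynomial (Fin r) R := fun g => ∑ l, monomial (Finsupp.single l 1) (act g (u l))
  let E : MvPolynomial (Fin r) R := aeval L (esymm G k j)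
  have hE : E ∈ Coef (Fin r) (U ^ j) := by
    simp only [E, esymm, map_sum, map_prod, aeval_X]
    refine Submodule.sum_mem _ fun B hB => ?_
    rw [← (Finset.mem_powersetCard.1 hB).2]
    exact coef_prod B L fun g => Submodule.sum_mem _ fun l _ => coef_mono _ (hU g _ (u l).2)
  have inv : ∀ h, mapAlgHom (act h) E = E := fun h => by
    have : (mapAlgHom (act h)).comp (aeval L) = (aeval L).comp (rename (Equiv.mulRight h)) :=
      algHom_ext fun g => by simp [L, hact]
    exact (DFunLike.congr_fun this _).trans (by simp only [AlgHom.comp_apply, rename_esymm, E])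
  have hc : ∀ μ, coeff μ E ∈ A := fun μ => hA _ (hE μ) fun h => by
    have := congrArg (coeff μ) (inv h)
    rwa [mapAlgHom_apply, coeff_map] at this
  have ev : eval (fun l => (a l : R)) E = (Fintype.card G).choose j • f ^ j := by
    have : ((aeval (fun l => (a l : R))).restrictScalars k).comp (aeval L) =
        aeval (fun _ : G => f) := algHom_ext fun g => by
      rw [← hf g, ← e]
      simp [L, eval_monomial, mul_comm, Subalgebra.smul_def, hP _ (a _).2]
    have := DFunLike.congr_fun this (esymm G k j)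
    refine Eq.trans (b := aeval (fun _ : G => f) (esymm G k j)) this ?_
    simp only [esymm, map_sum, map_prod, aeval_X, Finset.prod_const]
    rw [Finset.sum_congr rfl fun B hB => by rw [(Finset.mem_powersetCard.1 hB).2]]
    simp
  have m : eval (fun l => (a l : R)) E ∈ A := eval_mem (fun μ _ => hc μ) fun l => hPA (a l).2
  rw [ev, ← Nat.cast_smul_eq_nsmul k] at m
  simpa [hj] using A.smul_mem m ((Fintype.card G).choose j : k)⁻¹

/-- Bounded generation of an algebra generated by integral elements. -/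
lemma gen_lemma (A : Subalgebra k R) (N : ℕ) {α : Type*} (T : Finset α) (y : α → R)
    (L : Submodule k R) (h1 : (1 : R) ∈ L) (hy : ∀ a ∈ T, y a ∈ L)
    (hint : ∀ a ∈ T, ∃ c : ℕ → R, (∀ i, c i ∈ A) ∧ y a ^ N = ∑ i ∈ Finset.range N, c i * y a ^ i)
    (hN : 0 < N) (D : ℕ) (hD : T.card * N ≤ D) (x : R) (hx : x ∈ Algebra.adjoin k (y '' T)) :
    x ∈ Submodule.span A ((L ^ D : Submodule k R) : Set R) := by
  classical
  have mono : ∀ {a b : ℕ}, a ≤ b → L ^ a ≤ L ^ b := fun h =>
    pow_le_pow_right' (Submodule.one_le.2 h1) h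
  let S : α → Submodule A R := fun a => Submodule.span A {z | ∃ i < N, z = y a ^ i}
  have hS : ∀ a ∈ T, ∀ z ∈ S a, y a * z ∈ S a := fun a ha z hz => by
    obtain ⟨c, hc, e⟩ := hint a ha
    induction hz using Submodule.span_induction with
    | mem z hz =>
      obtain ⟨i, hi, rfl⟩ := hz
      rw [← pow_succ']
      by_cases h : i + 1 < N
      · exact Submodule.subset_span ⟨_, h, rfl⟩
      · rw [show i + 1 = N by omega, e]
        exact Submodule.sum_mem _ fun l hl => (S a).smul_mem ⟨c l, hc l⟩
          (Submodule.subset_span ⟨l, Finset.mem_range.1 hl, rfl⟩)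
    | zero => simp
    | add _ _ _ _ a b => rw [mul_add]; exact Submodule.add_mem _ a b
    | smul c z _ a => rw [mul_smul_comm]; exact Submodule.smul_mem _ c a
  have hM : ∀ z ∈ ∏ a ∈ T, S a, x * z ∈ ∏ a ∈ T, S a := by
    induction hx using Algebra.adjoin_induction with
    | mem x hx =>
      obtain ⟨a, ha, rfl⟩ := hx
      rw [← Finset.mul_prod_erase T S ha]
      intro z hz
      refine Submodule.mul_induction_on hz (fun u hu v hv => ?_) fun u v a b => ?_
      · rw [← mul_assoc]; exact Submodule.mul_mem_mul (hS a ha u hu) hv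
      · rw [mul_add]; exact Submodule.add_mem _ a b
    | algebraMap c => exact fun z hz => Submodule.smul_mem _ (algebraMap k A c) hz
    | add _ _ _ _ a b => exact fun z hz => by rw [add_mul]; exact Submodule.add_mem _ (a z hz) (b z hz)
    | mul _ _ _ _ a b => exact fun z hz => by rw [mul_assoc]; exact a _ (b z hz)
  have h1' : (1 : R) ∈ ∏ a ∈ T, S a := Submodule.one_le.1
    (Finset.one_le_prod' fun a _ => Submodule.one_le.2 (Submodule.subset_span ⟨0, hN, by simp⟩))
  have le : ∀ B ⊆ T, ∏ a ∈ B, S a ≤ Submodule.span A ((L ^ (B.card * N) : Submodule k R) : Set R) := by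
    intro B hB
    induction B using Finset.induction_on with
    | empty => simpa [Submodule.one_le] using Submodule.subset_span (Submodule.one_le.1 le_rfl)
    | insert a B ha ih =>
      rw [Finset.prod_insert ha, Finset.card_insert_of_notMem ha, add_mul, one_mul, add_comm, pow_add]
      refine (mul_le_mul' (Submodule.span_mono (t := ((L ^ N : Submodule k R) : Set R)) ?_)
        (ih ((Finset.subset_insert _ _).trans hB))).trans ?_
      · rintro _ ⟨i, hi, rfl⟩
        exact mono hi.le (Submodule.pow_mem_pow _ (hy a (hB (Finset.mem_insert_self _ _))) i)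
      · rw [Submodule.span_mul_span]
        exact Submodule.span_mono (Submodule.mul_subset_mul _ _)
  exact Submodule.span_mono (mono hD) (le T subset_rfl (by simpa using hM 1 h1'))

lemma integ {G : Type*} [Group G] [Fintype G] [Nontrivial R] (act : G → R →ₐ[k] R)
    (hact : ∀ g h x, act g (act h x) = act (h * g) x) (h1 : ∀ x, act 1 x = x) (y : R) :
    ∃ c : ℕ → R, (∀ i g, act g (c i) = c i) ∧
      y ^ Fintype.card G = ∑ i ∈ Finset.range (Fintype.card G), c i * y ^ i := by
  let χ : Polynomial R := ∏ g, (Polynomial.X - Polynomial.C (act g y))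
  have mo : χ.Monic := Polynomial.monic_prod_X_sub_C _ _
  have dg : χ.natDegree = Fintype.card G := by
    rw [Polynomial.natDegree_prod_of_monic _ _ fun g _ => Polynomial.monic_X_sub_C _]
    simp
  refine ⟨fun i => -χ.coeff i, fun i g => ?_, ?_⟩
  · have : χ.map (act g : R →+* R) = χ := by
      simp only [χ, Polynomial.map_prod, Polynomial.map_sub, Polynomial.map_X, Polynomial.map_C,
        RingHom.coe_coe, hact]
      exact Fintype.prod_equiv (Equiv.mulRight g) _ _ fun _ => rfl
    have := congrArg (·.coeff i) this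
    simp only [Polynomial.coeff_map, RingHom.coe_coe] at this
    rw [map_neg, this]
  · have : χ.eval y = 0 := by
      rw [Polynomial.eval_prod]
      exact Finset.prod_eq_zero (Finset.mem_univ 1) (by simp [h1])
    rw [mo.as_sum, dg] at this
    simp only [Polynomial.eval_add, Polynomial.eval_pow, Polynomial.eval_X, Polynomial.eval_finset_sum,
      Polynomial.eval_mul, Polynomial.eval_C] at this
    simpa [neg_mul, Finset.sum_neg_distrib] using eq_neg_of_add_eq_zero_left this

lemma digits {α : Type*} (B : Finset α) (a : α → ℕ) {Q n b : ℕ} (hB : B.card < Q) (hn : n < Q)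
    (e : ∑ l ∈ B, Q ^ a l = n * Q ^ b) : ∀ l ∈ B, a l = b := by
  classical
  have Q0 : 0 < Q := by omega
  have up : ∀ l ∈ B, a l ≤ b := fun l hl => by
    by_contra h
    have h1 : Q ^ (b + 1) ≤ Q ^ a l := Nat.pow_le_pow_right Q0 (by omega)
    have h2 : Q ^ a l ≤ n * Q ^ b := e ▸ Finset.single_le_sum (f := fun l => Q ^ a l)
      (fun _ _ => Nat.zero_le _) hl
    have h3 : n * Q ^ b < Q * Q ^ b := Nat.mul_lt_mul_of_pos_right hn (pow_pos Q0 b)
    rw [pow_succ'] at h1
    omega
  intro l hl
  by_contra h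
  obtain ⟨c, rfl⟩ : ∃ c, b = c + 1 := ⟨b - 1, by have := up l hl; omega⟩
  rw [← Finset.sum_filter_add_sum_filter_not B (fun l => a l = c + 1)] at e
  have d : Q ^ (c + 1) ∣ ∑ l ∈ B with ¬ a l = c + 1, Q ^ a l :=
    (Nat.dvd_add_right (Finset.dvd_sum fun l hl => by rw [(Finset.mem_filter.1 hl).2])).1
      (e ▸ Dvd.intro_left _ rfl)
  have h0 : 0 < ∑ l ∈ B with ¬ a l = c + 1, Q ^ a l :=
    Finset.sum_pos (fun _ _ => pow_pos Q0 _) ⟨l, Finset.mem_filter.2 ⟨hl, h⟩⟩
  have h1 := Finset.sum_le_card_nsmul (B.filter fun l => ¬ a l = c + 1) (fun l => Q ^ a l) (Q ^ c)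
    fun l hl => Nat.pow_le_pow_right Q0 (by
      have := up l (Finset.mem_filter.1 hl).1
      have := (Finset.mem_filter.1 hl).2
      omega)
  have h2 : (B.filter fun l => ¬ a l = c + 1).card * Q ^ c < Q * Q ^ c :=
    Nat.mul_lt_mul_of_pos_right ((Finset.card_filter_le _ _).trans_lt hB) (pow_pos Q0 c)
  have := Nat.le_of_dvd h0 d
  rw [pow_succ'] at this
  simp only [smul_eq_mul] at h1
  omega

end Pool.Agent.H.MP_d2bd57_al
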