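import Mathlib
import Pool.Agent.H.MP_d2bd57_al.Gen
import Pool.Agent.H.MP_d2bd57_al.Defs

set_option autoImplicit false

namespace Pool.Agent.H.MP_d2bd57_al

open MvPolynomial

variable {k G : Type} [Field k] [Group G] {m : ℕ} (ρ : G →* Matrix (Fin m) (Fin m) k) (n : ℕ)

abbrev R0 (k : Type) [Field k] (m : ℕ) := MvPolynomial (Fin m) k
abbrev Rn (k : Type) [Field k] (m n : ℕ) := MvPolynomial (Fin n × Fin m) k

lemma one_mul' (g h : G) (x : R0 k m) : actOne ρ g (actOne ρ h x) = actOne ρ (h * g) x := by
  have : (actOne ρ g).comp (actOne ρ h) = actOne ρ (h * g) := algHom_ext fun s => by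
    simp only [actOne, AlgHom.comp_apply, aeval_X, map_sum, map_smul, map_mul, Matrix.mul_apply,
      Finset.smul_sum, Finset.sum_smul, smul_smul]
    exact Finset.sum_comm
  exact DFunLike.congr_fun this x

lemma many_mul (g h : G) (x : Rn k m n) :
    actMany ρ n g (actMany ρ n h x) = actMany ρ n (h * g) x := by
  have : (actMany ρ n g).comp (actMany ρ n h) = actMany ρ n (h * g) := algHom_ext fun s => by
    simp only [actMany, AlgHom.comp_apply, aeval_X, map_sum, map_smul, map_mul, Matrix.mul_apply,
      Finset.smul_sum, Finset.sum_smul, smul_smul]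
    exact Finset.sum_comm
  exact DFunLike.congr_fun this x

lemma one_one (x : R0 k m) : actOne ρ 1 x = x := by
  have : actOne ρ 1 = AlgHom.id k _ := algHom_ext fun s => by
    simp [actOne, Matrix.one_apply]
  rw [this]; rfl

noncomputable def Inv : Subalgebra k (R0 k m) := ⨅ g, AlgHom.equalizer (actOne ρ g) (AlgHom.id k _)

lemma mem_inv {f : R0 k m} : f ∈ Inv ρ ↔ ∀ g, actOne ρ g f = f := by
  simp [Inv, Algebra.mem_iInf, AlgHom.mem_equalizer]

lemma pol_X (s : Fin m) : polGen (k := k) n (X s) =
    ∑ i, monomial (Finsupp.single i 1) (X (i, s)) := by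
  simp only [polGen, aeval_X]
  exact Finset.sum_congr rfl fun i _ => by rw [mul_comm, C_mul_X_eq_monomial]

lemma pol_act (g : G) (f : R0 k m) :
    mapAlgHom (actMany ρ n g) (polGen n f) = polGen n (actOne ρ g f) := by
  have : (mapAlgHom (actMany ρ n g)).comp (polGen n) = (polGen n).comp (actOne ρ g) :=
    algHom_ext fun s => by
      simp only [polGen, actOne, actMany, AlgHom.comp_apply, aeval_X, map_sum, map_mul, map_smul,
        mapAlgHom_apply, map_X, map_C, RingHom.coe_coe, Finset.mul_sum, Finset.smul_sum]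
      rw [Finset.sum_comm]
      simp [smul_eq_C_mul, mul_left_comm, Algebra.smul_def]
  exact DFunLike.congr_fun this f

noncomputable abbrev P : Subalgebra k (Rn k m n) := polAlg n (Inv ρ : Set (R0 k m))

lemma pol_mem {f : R0 k m} (hf : ∀ g, actOne ρ g f = f) (β : Fin n →₀ ℕ) :
    coeff β (polGen n f) ∈ P ρ n := Algebra.subset_adjoin ⟨f, (mem_inv ρ).2 hf, β, rfl⟩

lemma P_inv : ∀ a ∈ P ρ n, ∀ g, actMany ρ n g a = a := fun a ha g => by
  have : P ρ n ≤ AlgHom.equalizer (actMany ρ n g) (AlgHom.id k _) := by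
    refine Algebra.adjoin_le ?_
    rintro _ ⟨f, hf, β, rfl⟩
    have := congrArg (coeff β) (pol_act ρ n g f)
    rwa [mapAlgHom_apply, coeff_map, (mem_inv ρ).1 hf g] at this
  exact this ha

lemma P_le {S : Set (R0 k m)} (hS : Inv ρ ≤ Algebra.adjoin k S) : P ρ n ≤ polAlg n S := by
  classical
  refine Algebra.adjoin_le ?_
  rintro _ ⟨f, hf, β, rfl⟩
  have h := hS hf
  clear hf
  induction h using Algebra.adjoin_induction generalizing β with
  | mem f hf => exact Algebra.subset_adjoin ⟨f, hf, β, rfl⟩
  | algebraMap c =>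
    rw [AlgHom.commutes, MvPolynomial.algebraMap_apply, coeff_C]
    split_ifs
    exacts [Subalgebra.algebraMap_mem _ c, Subalgebra.zero_mem _]
  | add _ _ _ _ a b => rw [map_add, coeff_add]; exact Subalgebra.add_mem _ (a β) (b β)
  | mul _ _ _ _ a b =>
    rw [map_mul, coeff_mul]
    exact Subalgebra.sum_mem _ fun x _ => Subalgebra.mul_mem _ (a _) (b _)

noncomputable def lin {α : Type} (k : Type) [Field k] {R : Type} [CommRing R] [Algebra k R]
    (T : Set α) (y : α → R) : Submodule k R := Submodule.span k (insert 1 (y '' T))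

lemma lin_map {α : Type} {R S : Type} [CommRing R] [Algebra k R] [CommRing S] [Algebra k S]
    (T : Set α) (y : α → R) (φ : R →ₐ[k] S) (V : Submodule k S) (h1 : 1 ∈ V)
    (h : ∀ a ∈ T, φ (y a) ∈ V) : ∀ u ∈ lin k T y, φ u ∈ V := by
  have : lin k T y ≤ V.comap φ.toLinearMap := by
    refine Submodule.span_le.2 ?_
    rintro _ (rfl | ⟨a, ha, rfl⟩)
    · simpa using h1
    · exact h a ha
  exact fun u hu => this hu

lemma lin_one {α : Type} {R : Type} [CommRing R] [Algebra k R] (T : Set α) (y : α → R) :
    1 ∈ lin k T y := Submodule.subset_span (Set.mem_insert _ _)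

lemma lin_y {α : Type} {R : Type} [CommRing R] [Algebra k R] {T : Set α} (y : α → R) {a : α}
    (h : a ∈ T) : y a ∈ lin k T y := Submodule.subset_span (Or.inr ⟨a, h, rfl⟩)

lemma deg_le {α ι R S : Type} [CommRing R] [Algebra k R] [CommRing S] [Algebra k S]
    (T : Set α) (y : α → R) (φ : R →ₐ[k] MvPolynomial ι S)
    (h : ∀ a ∈ T, (φ (y a)).totalDegree ≤ 1) {D : ℕ} {x : R} (hx : x ∈ lin k T y ^ D) :
    (φ x).totalDegree ≤ D := by
  induction hx using Submodule.pow_induction_on_left' with
  | algebraMap c => rw [AlgHom.commutes, MvPolynomial.algebraMap_apply, totalDegree_C]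
  | add x y i _ _ a b => rw [map_add]; exact (totalDegree_add _ _).trans (max_le a b)
  | mem_mul u hu i x _ a =>
    rw [map_mul]
    have := (mem_restrictTotalDegree ι 1 _).1 (lin_map T y φ
      ((restrictTotalDegree ι S 1).restrictScalars k) (by simp [mem_restrictTotalDegree])
      (fun a ha => (mem_restrictTotalDegree ι 1 _).2 (h a ha)) u hu)
    exact (totalDegree_mul _ _).trans (by omega)

variable (p : ℕ) [Fact p.Prime] [CharP k p]

lemma pol_X_pow (s : Fin m) (e : ℕ) : polGen (k := k) n (X s) ^ p ^ e =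
    ∑ i, monomial (Finsupp.single i (p ^ e)) (X (i, s) ^ p ^ e) := by
  rw [pol_X, sum_pow_char_pow]
  simp [monomial_pow]

variable [Fintype G]

lemma step1 (e : ℕ) (he : m * Fintype.card G < p ^ e) (f : Rn k m n) :
    f ^ p ^ e ∈ Submodule.span (P ρ n)
      ((lin k Set.univ X ^ (m * Fintype.card G) : Submodule k (Rn k m n)) : Set (Rn k m n)) := by
  classical
  set D := m * Fintype.card G
  let M : Submodule (P ρ n) (Rn k m n) := Submodule.span _
    {x | ∃ h ∈ (lin k Set.univ X ^ D : Submodule k (R0 k m)), ∃ β, x = coeff β (polGen n h)}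
  have ha : ∀ h β, coeff β (polGen n h) ∈ M := fun h β => by
    have := gen_lemma (Inv ρ) (Fintype.card G) Finset.univ X (lin k Set.univ X) (lin_one _ _)
      (fun a _ => lin_y _ trivial) (fun s _ => by
        obtain ⟨c, hc, e⟩ := integ (actOne ρ) (one_mul' ρ) (one_one ρ) (X s)
        exact ⟨c, fun i => (mem_inv ρ).2 (hc i), e⟩) Fintype.card_pos D (by simp [D]) h
      (by simp [MvPolynomial.adjoin_range_X])
    induction this using Submodule.span_induction generalizing β with
    | mem h hh => exact Submodule.subset_span ⟨h, hh, β, rfl⟩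
    | zero => simp
    | add _ _ _ _ a b => rw [map_add, coeff_add]; exact M.add_mem (a β) (b β)
    | smul c h _ a =>
      rw [Subalgebra.smul_def, smul_eq_mul, map_mul, coeff_mul]
      exact M.sum_mem fun x _ => M.smul_mem ⟨_, pol_mem ρ n ((mem_inv ρ).1 c.2) x.1⟩ (a x.2)
  have hb : ∀ x : Fin n × Fin m, ∀ z ∈ M, z * X x ^ p ^ e ∈ M := fun ⟨c, s⟩ z hz => by
    induction hz using Submodule.span_induction with
    | mem z hz =>
      obtain ⟨h, hh, β, rfl⟩ := hz
      by_cases h0 : coeff β (polGen n h) = 0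
      · simp [h0]
      have dg : ∀ i, β i ≤ D := fun i =>
        ((monomial_le_degreeOf i (mem_support_iff.2 h0)).trans (degreeOf_le_totalDegree _ _)).trans
          (deg_le _ _ (polGen n) (fun s _ => by
            rw [pol_X]
            exact totalDegree_finsetSum_le fun i _ => (totalDegree_monomial_le _ _).trans (by simp))
            hh)
      convert ha (h * X s ^ p ^ e) (β + Finsupp.single c (p ^ e)) using 1
      rw [map_mul, map_pow, pol_X_pow, Finset.mul_sum, coeff_sum, Finset.sum_eq_single c]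
      · rw [coeff_mul_monomial]
      · intro i _ hi
        rw [coeff_mul_monomial', if_neg]
        intro le
        have := le i
        have := dg i
        simp [hi] at *
        omega
      · simp
    | zero => simp
    | add _ _ _ _ a b => rw [add_mul]; exact M.add_mem a b
    | smul c h _ a => rw [smul_mul_assoc]; exact M.smul_mem c a
  have hc : f ^ p ^ e ∈ M := by
    induction f using MvPolynomial.induction_on with
    | C a =>
      rw [← map_pow]
      generalize a ^ p ^ e = b
      simpa [polGen] using ha (C b) 0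
    | add f g a b => rw [add_pow_char_pow]; exact M.add_mem a b
    | mul_X f x a => rw [mul_pow]; exact hb x _ a
  refine Submodule.span_mono ?_ hc
  rintro _ ⟨h, hh, β, rfl⟩
  refine coef_pow _ _ (map_pow_mem (polGen n) (lin_map _ _ _ _ ?_ fun s _ => ?_) hh) β
  · exact coef_mono 0 (lin_one _ _)
  · rw [pol_X]
    exact Submodule.sum_mem _ fun i _ => coef_mono _ (lin_y _ trivial)

noncomputable def tau : Rn k m n →ₐ[k] MvPolynomial (Fin n) (Rn k m n) :=
  aeval fun x => monomial (Finsupp.single x.1 1) (X x)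

omit [Fintype G] in
lemma tau_inv {f : Rn k m n} (hf : ∀ g, actMany ρ n g f = f) (β : Fin n →₀ ℕ) (g : G) :
    actMany ρ n g (coeff β (tau n f)) = coeff β (tau n f) := by
  have : (mapAlgHom (actMany ρ n g)).comp (tau n) = (tau n).comp (actMany ρ n g) :=
    algHom_ext fun s => by simp [tau, actMany]
  have := congrArg (coeff β) (DFunLike.congr_fun this f)
  rwa [AlgHom.comp_apply, AlgHom.comp_apply, hf, mapAlgHom_apply, coeff_map] at this

lemma tau_mem (A : Subalgebra k (Rn k m n)) {f : Rn k m n}
    (h : ∀ β ∈ (tau n f).support, coeff β (tau n f) ∈ A) : f ∈ A := by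
  have : ((aeval fun _ => (1 : Rn k m n)).restrictScalars k).comp (tau n) = AlgHom.id k _ :=
    algHom_ext fun s => by simp [tau, eval_monomial]
  have e : eval (fun _ => 1) (tau n f) = f := DFunLike.congr_fun this f
  rw [← e]
  exact eval_mem h fun _ => A.one_mem

lemma tau_adj (f : Rn k m n) (β : Fin n →₀ ℕ) :
    coeff β (tau n f) ∈ Algebra.adjoin k (X '' {x : Fin n × Fin m | x.1 ∈ β.support}) := by
  classical
  induction f using MvPolynomial.induction_on generalizing β with
  | C a =>
    rw [← MvPolynomial.algebraMap_eq, AlgHom.commutes, MvPolynomial.algebraMap_apply, coeff_C]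
    split_ifs
    exacts [Subalgebra.algebraMap_mem _ a, Subalgebra.zero_mem _]
  | add f g a b => rw [map_add, coeff_add]; exact Subalgebra.add_mem _ (a β) (b β)
  | mul_X f x a =>
    rw [map_mul, tau, aeval_X, coeff_mul_monomial']
    split_ifs with h
    · refine Subalgebra.mul_mem _ (Algebra.adjoin_mono (Set.image_mono fun y hy => ?_) (a _))
        (Algebra.subset_adjoin ⟨x, ?_, rfl⟩)
      · exact Finsupp.support_tsub hy
      · simpa [Nat.one_le_iff_ne_zero] using h
    · exact Subalgebra.zero_mem _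

lemma lin_pow_le {α : Type} {R : Type} [CommRing R] [Algebra k R] (T : Set α) (y : α → R) (D : ℕ) :
    lin k T y ^ D ≤ Submodule.span k
      {z | ∃ r ≤ D, ∃ x : Fin r → α, (∀ l, x l ∈ T) ∧ z = ∏ l, y (x l)} := by
  induction D with
  | zero =>
    rw [pow_zero, Submodule.one_le]
    exact Submodule.subset_span ⟨0, le_rfl, Fin.elim0, fun l => l.elim0, by simp⟩
  | succ D ih =>
    rw [pow_succ']
    refine (mul_le_mul' le_rfl ih).trans ?_
    rw [lin, Submodule.span_mul_span]
    refine Submodule.span_mono ?_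
    rintro _ ⟨u, rfl | ⟨a, ha, rfl⟩, _, ⟨r, hr, x, hx, rfl⟩, rfl⟩
    · exact ⟨r, by omega, x, hx, by simp⟩
    · exact ⟨r + 1, by omega, Fin.cons a x, fun l => by cases l using Fin.cases <;> simp [*],
        by simp [Fin.prod_univ_succ]⟩

lemma prod_mono {α ι R : Type} [CommRing R] (B : Finset α) (μ : α → ι →₀ ℕ) (r : α → R) :
    ∏ a ∈ B, monomial (μ a) (r a) = monomial (∑ a ∈ B, μ a) (∏ a ∈ B, r a) := by
  classical
  induction B using Finset.induction_on with
  | empty => simp
  | insert a B ha ih => simp [Finset.prod_insert ha, Finset.sum_insert ha, ih, monomial_mul]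

omit [Fintype G] in
lemma kron (I : Set (Fin n)) (lam : Fin n → ℕ) (hl : Set.InjOn lam I) (e D : ℕ) (hD : D < p ^ e)
    (F : Rn k m n) (hF : F ∈ lin k {x : Fin n × Fin m | x.1 ∈ I}
      (fun x => (X x : Rn k m n) ^ p ^ (e * lam x.1)) ^ D)
    (inv : ∀ g, actMany ρ n g F = F) : F ∈ P ρ n := by
  classical
  have key : ∀ β, coeff β (polGen n (rename Prod.snd (coeff β (tau n F)))) = coeff β (tau n F) := by
    intro β
    have := lin_pow_le _ _ _ hF
    clear hF inv
    induction this using Submodule.span_induction with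
    | mem z hz =>
      obtain ⟨r, hr, x, hx, rfl⟩ := hz
      have e1 : tau n (∏ l, (X (x l) : Rn k m n) ^ p ^ (e * lam (x l).1)) =
          monomial (∑ l, Finsupp.single (x l).1 (p ^ (e * lam (x l).1)))
            (∏ l, (X (x l) : Rn k m n) ^ p ^ (e * lam (x l).1)) := by
        simp [tau, monomial_pow, prod_mono]
      rw [e1, coeff_monomial]
      split_ifs with hβ
      swap
      · simp
      simp only [map_prod, map_pow, rename_X, pol_X_pow]
      rw [Finset.prod_univ_sum, coeff_sum, Finset.sum_eq_single fun l => (x l).1]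
      · rw [prod_mono, hβ, coeff_monomial, if_pos rfl]
      · intro i _ hi
        rw [prod_mono, coeff_monomial, if_neg]
        intro h
        refine hi (funext fun l => ?_)
        have h1 := congrArg (· (i l)) (h.trans hβ.symm)
        simp only [Finsupp.coe_finset_sum, Finset.sum_apply, Finsupp.single_apply,
          ← Finset.sum_filter, pow_mul] at h1
        rw [Finset.sum_congr (s₁ := Finset.univ.filter fun l' => (x l').1 = i l)
          (g := fun _ => (p ^ e) ^ lam (i l)) rfl fun l' hl' => by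
          rw [(Finset.mem_filter.1 hl').2], Finset.sum_const, smul_eq_mul] at h1
        have c : ∀ B : Finset (Fin r), B.card < p ^ e := fun B =>
          (Finset.card_le_univ B).trans_lt (by simp; omega)
        have h2 := digits _ _ (c _) (c _) h1 l (by simp)
        have h3 : (Finset.univ.filter fun l' => (x l').1 = i l).Nonempty := by
          rw [← Finset.card_pos]
          refine Nat.pos_of_mul_pos_right (h1 ▸ Finset.sum_pos (fun _ _ => ?_) ⟨l, by simp⟩)
          exact pow_pos (by omega) _
        obtain ⟨l', hl'⟩ := h3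
        exact hl ((Finset.mem_filter.1 hl').2 ▸ hx l') (hx l) h2.symm
      · simp
    | zero => simp
    | add _ _ _ _ a b => simp only [map_add, coeff_add, a, b]
    | smul c h _ a => simp only [map_smul, coeff_smul, a]
  refine tau_mem n _ fun β _ => ?_
  rw [← key]
  refine pol_mem ρ n (fun g => ?_) β
  have : (actOne ρ g).comp (rename Prod.snd) = (rename Prod.snd).comp (actMany ρ n g) :=
    algHom_ext fun s => by simp [actOne, actMany]
  exact (DFunLike.congr_fun this _).trans (by rw [AlgHom.comp_apply, tau_inv ρ n inv])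

omit [Fintype G] in
lemma emb_mem (i : Fin n) {f : R0 k m} (hf : ∀ g, actOne ρ g f = f) :
    rename (fun s => (i, s)) f ∈ P ρ n := by
  classical
  have : ((aeval fun j => if j = i then (1 : Rn k m n) else 0).restrictScalars k).comp (polGen n) =
      rename (fun s => (i, s)) := algHom_ext fun s => by simp [polGen]
  have e : eval (fun j => if j = i then (1 : Rn k m n) else 0) (polGen n f) = _ :=
    DFunLike.congr_fun this f
  rw [← e]
  refine eval_mem (fun β _ => pol_mem ρ n hf β) fun j => ?_
  split_ifs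
  exacts [one_mem _, zero_mem _]

omit [Fintype G] in
lemma lin_stab (I : Set (Fin n)) (a : Fin n → ℕ) (D : ℕ) (g : G) :
    ∀ u ∈ lin k {x : Fin n × Fin m | x.1 ∈ I} (fun x => (X x : Rn k m n) ^ p ^ a x.1) ^ D,
    actMany ρ n g u ∈
      lin k {x : Fin n × Fin m | x.1 ∈ I} (fun x => (X x : Rn k m n) ^ p ^ a x.1) ^ D :=
  fun u hu => map_pow_mem _ (lin_map _ _ _ _ (lin_one _ _) fun x hx => by
    simp only [actMany, map_pow, aeval_X, sum_pow_char_pow, smul_pow]
    exact Submodule.sum_mem _ fun t _ => Submodule.smul_mem _ _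
      (lin_y (fun x : Fin n × Fin m => (X x : Rn k m n) ^ p ^ a x.1) (a := (x.1, t)) hx)) hu

lemma step3 (j K e : ℕ) (hj : ((Fintype.card G).choose j : k) ≠ 0)
    (he : K * m * Fintype.card G * j < p ^ e) (I : Finset (Fin n)) (hI : I.card ≤ K) (f : Rn k m n)
    (hf : f ∈ Algebra.adjoin k (X '' {x : Fin n × Fin m | x.1 ∈ I}))
    (inv : ∀ g, actMany ρ n g f = f) : (f ^ p ^ (e * K)) ^ j ∈ P ρ n := by
  classical
  obtain ⟨lam, hl, hK⟩ : ∃ lam : Fin n → ℕ, Set.InjOn lam I ∧ ∀ i ∈ I, lam i ≤ K := by
    refine ⟨fun i => if h : i ∈ I then I.equivFin ⟨i, h⟩ else 0, fun a ha b hb h => ?_,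
      fun i hi => ?_⟩
    · simp only [Finset.mem_coe.1 ha, Finset.mem_coe.1 hb, dif_pos] at h
      exact congrArg Subtype.val (I.equivFin.injective (Fin.ext h))
    · simp only [hi, dif_pos]
      exact (Fin.is_lt _).le.trans hI
  let Y : Fin n × Fin m → Rn k m n := fun x => X x ^ p ^ (e * lam x.1)
  refine norm_lemma (actMany ρ n) (many_mul ρ n) (P ρ n) (P ρ n) le_rfl (P_inv ρ n)
    (lin k {x | x.1 ∈ (I : Set (Fin n))} Y ^ (K * m * Fintype.card G))
    (lin_stab ρ n p _ (fun i => e * lam i) _) j hj
    (fun x hx hx' => kron ρ n p I lam hl e _ he x (by rwa [← pow_mul] at hx) hx') _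
    (fun g => by rw [map_pow, inv]) ?_
  refine gen_lemma (P ρ n) (Fintype.card G) (I ×ˢ Finset.univ) Y _ (lin_one _ _)
    (fun a ha => lin_y _ (Finset.mem_product.1 ha).1) (fun ⟨i, s⟩ _ => ?_) Fintype.card_pos _
    (Nat.mul_le_mul_right _ (by simpa using Nat.mul_le_mul_right m hI)) _ ?_
  · obtain ⟨c, hc, e⟩ := integ (actOne ρ) (one_mul' ρ) (one_one ρ) (X s ^ p ^ (e * lam i))
    exact ⟨fun l => rename (fun s => (i, s)) (c l), fun l => emb_mem ρ n i (hc l),
      by simpa using congrArg (rename fun s => (i, s)) e⟩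
  · clear inv
    induction hf using Algebra.adjoin_induction with
    | mem x hx =>
      obtain ⟨x, hx, rfl⟩ := hx
      obtain ⟨c, hc⟩ := Nat.exists_eq_add_of_le (hK _ hx)
      rw [hc, mul_add, pow_add, pow_mul]
      exact pow_mem (Algebra.subset_adjoin (Set.mem_image_of_mem Y (by simpa using hx))) _
    | algebraMap c => exact pow_mem (Subalgebra.algebraMap_mem _ c) _
    | add _ _ _ _ a b => rw [add_pow_char_pow]; exact add_mem a b
    | mul _ _ _ _ a b => rw [mul_pow]; exact mul_mem a b

def root {R : Type} [CommRing R] [Algebra k R] [CharP R p] (A : Subalgebra k R) (e : ℕ) :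
    Subalgebra k R where
  carrier := {x | x ^ p ^ e ∈ A}
  mul_mem' := fun a b => by simpa [mul_pow] using mul_mem a b
  add_mem' := fun a b => by simpa [add_pow_char_pow] using add_mem a b
  algebraMap_mem' := fun c => pow_mem (A.algebraMap_mem c) _

theorem main : ∃ d : ℕ, ∀ (n : ℕ) (f : Rn k m n), (∀ g, actMany ρ n g f = f) →
    f ^ p ^ d ∈ P ρ n := by
  obtain ⟨a, r, hr, hN⟩ := Nat.exists_eq_pow_mul_and_not_dvd (Fintype.card_ne_zero (α := G)) p
    (Fact.out : p.Prime).ne_one
  have hj : ((Fintype.card G).choose (p ^ a) : k) ≠ 0 := by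
    have := Choose.choose_pow_mul_pow_mul_modEq_choose_nat (p := p) (k := a) (a := r) (b := 1)
    rw [mul_one, ← hN, Nat.choose_one_right] at this
    rw [(CharP.natCast_eq_natCast k p).2 this, Ne, CharP.cast_eq_zero_iff k p]
    exact hr
  have lt : ∀ x, x < p ^ x := fun x => Nat.lt_pow_self (Fact.out : p.Prime).one_lt
  set D := m * Fintype.card G
  set K := D * p ^ a
  set e := K * m * Fintype.card G * p ^ a
  refine ⟨D + a + (e * K + a), fun n f inv => ?_⟩
  rw [pow_add, pow_mul, pow_add p D, pow_mul]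
  have st := lin_stab ρ n p Set.univ (fun _ => 0) D
  simp only [pow_zero, pow_one, Set.mem_univ, Set.setOf_true] at st
  refine norm_lemma (actMany ρ n) (many_mul ρ n) (P ρ n) (root p (P ρ n) (e * K + a))
    (fun x hx => pow_mem hx _) (P_inv ρ n) _ st _ hj (fun x hx hx' => ?_) _
    (fun g => by rw [map_pow, inv]) (step1 ρ n p D (lt D) f)
  refine tau_mem n _ fun β hβ => ?_
  show coeff β (tau n x) ^ p ^ (e * K + a) ∈ P ρ n
  rw [pow_add, pow_mul]
  refine step3 ρ n p _ K e hj (lt e) β.support ?_ _ (tau_adj n x β) (tau_inv ρ n hx' β)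
  rw [← pow_mul] at hx
  refine le_trans ?_ ((le_totalDegree hβ).trans (deg_le _ _ (tau n) (fun s _ => ?_) hx))
  · rw [Finsupp.sum, Finset.card_eq_sum_ones]
    exact Finset.sum_le_sum fun i hi => Nat.one_le_iff_ne_zero.2 (Finsupp.mem_support_iff.1 hi)
  · rw [tau, aeval_X]
    exact (totalDegree_monomial_le _ _).trans (by simp)

end Pool.Agent.H.MP_d2bd57_al
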